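import Pool.Agent.H575.AX.BtP
import Pool.Graph.R_pool_sql_team_seeded_3997aac3.Q175.AX.Rho
import Pool.Graph.R_pool_sql_team_seeded_3997aac3.Q175.AX.Ell
import Pool.Graph.R_pool_sql_team_seeded_3997aac3.Q175.AX.UU
import Pool.Graph.R_pool_sql_team_seeded_3997aac3.Q175.AX.Har
import Pool.Graph.R_pool_sql_team_seeded_3997aac3.Q175.AX.Sm
import Pool.Graph.R_pool_sql_team_seeded_3997aac3.Q111.AXI.Cac
import Pool.Graph.R_pool_sql_team_seeded_3997aac3.Q119.AXI.Dt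
import Pool.Graph.R_pool_sql_team_seeded_3997aac3.Q119.AXI.Bar
import Pool.Graph.R_pool_sql_team_seeded_3997aac3.Q119.AXI.Sob
import Pool.Graph.R_pool_sql_team_seeded_3997aac3.Q119.AXI.Who
import Pool.Graph.R_pool_sql_team_seeded_3997aac3.Q149.AXI.EqC
import Pool.Graph.R_pool_sql_team_seeded_3997aac3.Q150.AXI.EqO
import Pool.Graph.R_pool_sql_team_seeded_3997aac3.Q151.AXI.Der
import Pool.Graph.R_pool_sql_team_seeded_3997aac3.Q151.AXI.GR
import Pool.Graph.R_pool_sql_team_seeded_3997aac3.Q153.AXI.EqW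
import Pool.Graph.R_pool_sql_team_seeded_3997aac3.Q153.AXI.EqJ
import Pool.Graph.R_pool_sql_team_seeded_3997aac3.Q153.AXI.Jnt
import Pool.Graph.R_pool_sql_team_seeded_3997aac3.Q153.AXI.Psi
import Pool.Graph.R_pool_sql_team_seeded_3997aac3.Q153.AXI.T2P
import Pool.Graph.R_pool_sql_team_seeded_3997aac3.Q16.AXI.BQ
import Pool.Graph.R_pool_sql_team_seeded_3997aac3.Q16.AXI.Mo
import Pool.Graph.R_pool_sql_team_seeded_3997aac3.Q16.AXI.Tra
import Pool.Graph.R_pool_sql_team_seeded_3997aac3.Q182.AXI.AAs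
import Pool.Graph.R_pool_sql_team_seeded_3997aac3.Q182.AXI.T1P
import Pool.Graph.R_pool_sql_team_seeded_3997aac3.Q24.AXI.Cut
import Pool.Graph.R_pool_sql_team_seeded_3997aac3.Q24.AXI.YiP
import Pool.Graph.R_pool_sql_team_seeded_3997aac3.Q257.AXI.AxF
import Pool.Graph.R_pool_sql_team_seeded_3997aac3.Q257.AXI.Alg
import Pool.Graph.R_pool_sql_team_seeded_3997aac3.Q257.AXI.Div
import Pool.Graph.R_pool_sql_team_seeded_3997aac3.Q257.AXI.H0
import Pool.Graph.R_pool_sql_team_seeded_3997aac3.Q257.AXI.Kap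
import Pool.Graph.R_pool_sql_team_seeded_3997aac3.Q285.AXI.Fin
import Pool.Graph.R_pool_sql_team_seeded_3997aac3.Q285.AXI.Reg
import Pool.Graph.R_pool_sql_team_seeded_3997aac3.Q65.AXI.LogP
import Pool.Graph.R_pool_sql_team_seeded_3997aac3.Q65.AXI.MainP
import Pool.Graph.R_pool_sql_team_seeded_3997aac3.Q67.AXI.Fin2
import Pool.Graph.R_pool_sql_team_seeded_3997aac3.Q67.AXI.Fin4
import Pool.Graph.R_pool_sql_team_seeded_3997aac3.Q95.AXI.Gd
import Pool.Graph.R_pool_sql_team_seeded_3997aac3.Q95.AXP.Yd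
import Pool.Graph.R_pool_sql_team_seeded_3997aac3.Q98.AXI.SobW
import Pool.Graph.R_pool_sql_team_seeded_3997aac3.Q98.AXI.EllW
import Pool.Graph.R_pool_sql_team_seeded_3997aac3.Q174.AXW.EnW
import Pool.Graph.R_pool_sql_team_seeded_3997aac3.Q177.AXI.FinW
import Pool.Graph.R_pool_sql_team_seeded_3997aac3.Q177.AXI.LogQ
import Pool.Graph.R_pool_sql_team_seeded_3997aac3.Q177.AXI.Uw
import Pool.Graph.R_pool_sql_team_seeded_3997aac3.Q234.AXW.DtW
import Pool.Graph.R_pool_sql_team_seeded_3997aac3.Q261.AXQ.MainQ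
import Pool.Graph.R_pool_sql_team_seeded_3997aac3.Q261.AXQ.T1Q
import Pool.Graph.R_pool_sql_team_seeded_3997aac3.Q261.AXQ.T2Q
import Pool.Graph.R_pool_sql_team_seeded_3997aac3.Q261.AXQ.WbQ
import Pool.Graph.R_pool_sql_team_seeded_3997aac3.Q261.AXQ.YdQ

/-! Assembly of the projects AXI, AXP, AXQ of helper67 (library, run 3997aac3). -/

set_option autoImplicit false

namespace Pool.Agent.H575.AX

open Pool.Agent.Q67.AXI

theorem aas : StmAAs := Pool.Agent.Q182.AXI.aas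

theorem axf : StmAxF := Pool.Agent.Q257.AXI.t_AxF aas

theorem alg : StmAlg := Pool.Agent.Q257.AXI.t_Alg aas axf

theorem div : StmDiv := Pool.Agent.Q257.AXI.t_Div aas axf alg

theorem jnt : StmJnt := Pool.Agent.Q153.AXI.t_Jnt aas

theorem en : StmEn := Pool.Agent.Q175.AX.en Pool.Agent.Q257.AXI.t_H0

theorem ell : StmEll := Pool.Agent.Q175.AX.ell Pool.Agent.Q257.AXI.t_H0 axf

theorem uu : StmU := Pool.Agent.Q175.AX.stmU alg axf div ell Pool.Agent.Q119.AXI.stmSob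

theorem eqw : StmEqW := Pool.Agent.Q153.AXI.t_EqW aas axf alg jnt Pool.Agent.Q149.AXI.t_EqC

theorem eqj : StmEqJ := Pool.Agent.Q153.AXI.t_EqJ aas axf alg jnt eqw

theorem eqo : StmEqO := Pool.Agent.Q150.AXI.t_EqO alg

theorem bar : StmBar := Pool.Agent.Q119.AXI.stmBar alg Pool.Agent.Q149.AXI.t_EqC

theorem sm : StmSm := Pool.Agent.Q175.AX.stmSm alg bar

theorem gd : StmGd := Pool.Agent.Q95.AXI.gd Pool.Agent.Q151.AXI.stmGR
  (Pool.Agent.Q151.AXI.stmDer Pool.Agent.Q16.AXI.BQ.bq) (Pool.Agent.Q257.AXI.t_Kap aas axf alg)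

theorem cac : StmCac := Pool.Agent.Q111.AXI.cac Pool.Agent.Q153.AXI.t_Psi alg jnt
  Pool.Agent.Q119.AXI.stmDt en eqw

theorem fin : StmFin := Pool.Agent.Q285.AXI.fin alg axf div jnt cac

theorem mo : StmMo := Pool.Agent.Q16.AXI.mo alg axf

theorem ydp : StmYdP := Pool.Agent.Q95.AXP.yd alg axf div eqj eqo jnt Pool.Agent.Q119.AXI.stmDt en
  (Pool.Agent.Q182.AXI.T1P.t_T1P alg axf Pool.Agent.Q175.AX.har uu)
  (Pool.Agent.Q153.AXI.t_T2P alg Pool.Agent.Q175.AX.har)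

theorem btp : StmBtP := t_BtP alg jnt Pool.Agent.Q119.AXI.stmDt uu ydp sm

theorem yip : StmYiP := Pool.Agent.Q24.AXI.yiP alg jnt Pool.Agent.Q119.AXI.stmDt uu ydp

theorem mainP : StmMainP := Pool.Agent.Q65.AXI.t_MainP gd (Pool.Agent.Q65.AXI.t_LogP alg jnt bar)
  Pool.Agent.Q24.AXI.t_Cut btp yip fin mo Pool.Agent.Q285.AXI.reg alg

/-! The second theorem. -/

theorem uw : StmUW := Pool.Agent.Q177.AXI.uw alg axf div (Pool.Agent.Q98.AXI.ellW axf)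
  Pool.Agent.Q98.AXI.sobW

theorem ydq : ∃ gm dl : ℝ → ℝ → ℝ, StmYdQ gm dl := Pool.Agent.Q261.AXQ.ydq alg axf eqj eqo jnt
  Pool.Agent.Q174.AXW.t_EnW (Pool.Agent.Q261.AXQ.t1q alg axf uw) (Pool.Agent.Q261.AXQ.t2q alg)
  Pool.Agent.Q234.AXW.DtW.dtW

theorem finw : StmFinW := Pool.Agent.Q177.AXI.finW alg axf div jnt cac

theorem mainQ : ∃ dl : ℝ → ℝ → ℝ, (∀ μ c₂ : ℝ, 0 < μ → μ < 2 → 0 ≤ c₂ → 0 < dl μ c₂) ∧
    StmMainQ dl := by
  obtain ⟨gm, dl, h⟩ := ydq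
  refine ⟨dl, fun μ c₂ h1 h2 h3 => (h μ c₂ h1 h2 h3).2.2.2.1, ?_⟩
  exact Pool.Agent.Q261.AXQ.mainq gm dl h
    (Pool.Agent.Q261.AXQ.wbq gm dl alg jnt uw Pool.Agent.Q234.AXW.DtW.dtW sm h) gd
    (Pool.Agent.Q177.AXI.t_LogQ alg jnt bar) Pool.Agent.Q24.AXI.t_Cut finw
    Pool.Agent.Q285.AXI.reg alg

theorem tra : StmTra := Pool.Agent.Q16.AXI.tra'

theorem who : StmWho := Pool.Agent.Q119.AXI.stmWho

theorem gr : StmGR := Pool.Agent.Q151.AXI.stmGR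

end Pool.Agent.H575.AX
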