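import Pool.Graph.R_pool_sql_team_seeded_3997aac3.Q175.AX.Bt
import Pool.Graph.R_pool_sql_team_seeded_3997aac3.Q67.AXI.Defs3

/-! The bound of `W` if the circulation is small in the region `ρ² ≤ (T - t) ^ θ` only (`StmBtP`).
Adapted from helper175's proof of `StmBt` (library, run 3997aac3, `Q175/AX/Bt.lean`). -/

set_option autoImplicit false

open MeasureTheory Set Metric Filter Topology
open scoped ContDiff
open H459R3.NS Pool.Agent.W268.NS Pool.Agent.Q67.VD

namespace Pool.Agent.H575.AX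

open Pool.Agent.Q85.CC Pool.Agent.Q85.CL Pool.Agent.TH305.AX Pool.Agent.Q67.AXI
open Pool.Agent.Q175.AX

/-- an integrable upper bound of the weight `PM` -/
lemma pm_fun {T T₁ t' θ M : ℝ} (hθ0 : 0 < θ) (hθ1 : θ < 1) (hM : 0 < M) (_h1 : T₁ ≤ t')
    (h2 : t' < T) : ∃ Pf : ℝ → ℝ, (∀ t ∈ Icc T₁ t', 0 ≤ Pf t ∧ PM M ((T - t) ^ θ) ≤ Pf t) ∧
      IntegrableOn Pf (Icc T₁ t') ∧
      ∀ s ∈ Icc T₁ t', ∫ t in T₁..s, Pf t ≤ M ^ (-((1 - θ) / (8 * θ))) / (1 - θ) := by
  have h1θ : 0 < 1 - θ := by linarith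
  obtain ⟨δ, hδ⟩ : ∃ δ : ℝ, δ = M ^ (-(1 / (8 * θ))) := ⟨_, rfl⟩
  have hδ0 : 0 < δ := by rw [hδ]; exact Real.rpow_pos_of_pos hM _
  have hδθ : δ ^ θ = M ^ (-(1 / 8) : ℝ) := by
    rw [hδ, ← Real.rpow_mul hM.le]
    congr 1
    field_simp
  have hδ1 : δ ^ (1 - θ) = M ^ (-((1 - θ) / (8 * θ))) := by
    rw [hδ, ← Real.rpow_mul hM.le]
    congr 1
    field_simp
  obtain ⟨f, hf⟩ : ∃ f : ℝ → ℝ, f = fun t => (T - t) ^ (-θ) := ⟨_, rfl⟩
  have hfc : ContinuousOn f (Icc T₁ t') := by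
    rw [hf]
    refine ContinuousOn.rpow_const (by fun_prop) fun t ht => Or.inl ?_
    have := ht.2
    exact (by linarith : (0 : ℝ) < T - t).ne'
  have hf0 : ∀ t ∈ Icc T₁ t', 0 ≤ f t := fun t ht => by
    rw [hf]
    exact Real.rpow_nonneg (by linarith [ht.2]) _
  have hfi : IntegrableOn f (Icc T₁ t') := hfc.integrableOn_compact isCompact_Icc
  refine ⟨(Ioi (T - δ)).indicator f, fun t ht => ⟨?_, ?_⟩, hfi.indicator measurableSet_Ioi, ?_⟩
  · by_cases h : t ∈ Ioi (T - δ)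
    · rw [indicator_of_mem h]
      exact hf0 t ht
    · rw [indicator_of_notMem h]
  · have hTt : 0 < T - t := by linarith [ht.2]
    unfold PM
    split_ifs with h
    · rw [← hδθ] at h
      have h3 : T - t < δ := (Real.rpow_lt_rpow_iff hTt.le hδ0.le hθ0).1 h
      rw [indicator_of_mem (show t ∈ Ioi (T - δ) from by
        show T - δ < t
        linarith), hf]
      show ((T - t) ^ θ)⁻¹ ≤ (T - t) ^ (-θ)
      rw [Real.rpow_neg hTt.le]
    · by_cases h' : t ∈ Ioi (T - δ)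
      · rw [indicator_of_mem h']
        exact hf0 t ht
      · rw [indicator_of_notMem h']
  · intro s hs
    rw [← hδ1]
    have hR0 : 0 ≤ δ ^ (1 - θ) / (1 - θ) := by positivity
    have hsub : Icc T₁ s ⊆ Icc T₁ t' := Icc_subset_Icc_right hs.2
    by_cases hc : s ≤ T - δ
    · have h3 : ∫ t in T₁..s, (Ioi (T - δ)).indicator f t = ∫ t in T₁..s, (0 : ℝ) := by
        refine intervalIntegral.integral_congr fun t ht => ?_
        rw [uIcc_of_le hs.1] at ht
        exact indicator_of_notMem (fun h => absurd (show T - δ < t from h) (by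
          have := ht.2
          linarith)) _
      rw [h3]
      simpa using hR0
    · push Not at hc
      obtain ⟨a, ha⟩ : ∃ a : ℝ, a = max T₁ (T - δ) := ⟨_, rfl⟩
      have ha1 : T₁ ≤ a := by rw [ha]; exact le_max_left _ _
      have ha2 : T - δ ≤ a := by rw [ha]; exact le_max_right _ _
      have ha3 : a ≤ s := by rw [ha]; exact max_le hs.1 hc.le
      have hii : ∀ x y : ℝ, T₁ ≤ x → x ≤ y → y ≤ t' →
          IntervalIntegrable ((Ioi (T - δ)).indicator f) volume x y := by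
        intro x y h3 h4 h5
        rw [intervalIntegrable_iff_integrableOn_Icc_of_le h4]
        exact (hfi.indicator measurableSet_Ioi).mono_set (Icc_subset_Icc h3 h5)
      rw [← intervalIntegral.integral_add_adjacent_intervals
        (hii T₁ a le_rfl ha1 (ha3.trans hs.2)) (hii a s ha1 ha3 hs.2)]
      have h3 : ∫ t in T₁..a, (Ioi (T - δ)).indicator f t = 0 := by
        by_cases h4 : T₁ ≤ T - δ
        · have h5 : a = T - δ := by rw [ha]; exact max_eq_right h4
          have h6 : ∫ t in T₁..a, (Ioi (T - δ)).indicator f t = ∫ t in T₁..a, (0 : ℝ) := by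
            refine intervalIntegral.integral_congr fun t ht => ?_
            rw [uIcc_of_le ha1] at ht
            exact indicator_of_notMem (fun h => absurd (show T - δ < t from h) (by
              have := ht.2
              linarith)) _
          rw [h6]
          simp
        · push Not at h4
          have h5 : a = T₁ := by rw [ha]; exact max_eq_left h4.le
          rw [h5]
          exact intervalIntegral.integral_same
      rw [h3, zero_add]
      have hfii : IntervalIntegrable f volume a s := by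
        rw [intervalIntegrable_iff_integrableOn_Icc_of_le ha3]
        exact hfi.mono_set (Icc_subset_Icc ha1 hs.2)
      have h4 : ∫ t in a..s, (Ioi (T - δ)).indicator f t ≤ ∫ t in a..s, f t := by
        refine intervalIntegral.integral_mono_on ha3 (hii a s ha1 ha3 hs.2) hfii fun t ht => ?_
        exact indicator_le_self' (fun _ _ => hf0 t ⟨ha1.trans ht.1, ht.2.trans hs.2⟩) t
      refine h4.trans ?_
      have h5 : ∫ t in a..s, f t = ((T - a) ^ (1 - θ) - (T - s) ^ (1 - θ)) / (1 - θ) := by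
        rw [hf]
        rw [intervalIntegral.integral_comp_sub_left (fun x : ℝ => x ^ (-θ)) T]
        rw [integral_rpow (Or.inl (by linarith))]
        rw [show -θ + 1 = 1 - θ by ring]
      rw [h5]
      refine div_le_div_of_nonneg_right ?_ h1θ.le
      have h6 : 0 ≤ (T - s) ^ (1 - θ) := Real.rpow_nonneg (by linarith [hs.2]) _
      have h7 : (T - a) ^ (1 - θ) ≤ δ ^ (1 - θ) :=
        Real.rpow_le_rpow (by linarith [hs.2]) (by linarith) h1θ.le
      linarith

theorem t_BtP (_hAlg : StmAlg) (hJnt : StmJnt) (hDt : StmDt) (hU : StmU) (hYd : StmYdP)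
    (hSm : StmSm) : StmBtP := by
  intro T E c R H K r h r1 h1 T₁ C' C₀ α' θ u p φ hu hK hr1 hr1r hrR hr2 hh1 hh1h hhH hh hT1 hTT hC'
    hC₀ hα1 hα2 hθ0 hθ1 hφ hb hcirc
  have hr0 : 0 < r := hr1.trans hr1r
  have hrle : r ≤ 1 := by
    have := hr2.trans exp2_lt.le
    nlinarith
  have h1θ : 0 < 1 - θ := by linarith
  obtain ⟨q, hq⟩ : ∃ q : ℝ, q = (1 - θ) / (8 * θ) := ⟨_, rfl⟩
  have hq0 : 0 < q := by rw [hq]; positivity
  obtain ⟨ε₀, hε₀⟩ : ∃ ε₀ : ℝ, ε₀ = min (1 / 16) (q / 2) := ⟨_, rfl⟩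
  have hε0 : 0 < ε₀ := by rw [hε₀]; exact lt_min (by norm_num) (by positivity)
  have hε1 : ε₀ ≤ 1 / 16 := by rw [hε₀]; exact min_le_left _ _
  have hε2 : ε₀ ≤ q / 2 := by rw [hε₀]; exact min_le_right _ _
  obtain ⟨C, M₂, hC, hM₂, hYd⟩ := hYd T E c R H K r h r1 h1 T₁ C' C₀ α' θ ε₀ u p φ hu hK hr1 hr1r
    hrR hr2 hh1 hh1h hhH hh hT1 hTT hC' hC₀ hα1 hα2 hε0 hφ hb hcirc
  obtain ⟨Cq, hCq⟩ : ∃ Cq : ℝ, Cq = 2 * C / (1 - θ) + 1 := ⟨_, rfl⟩
  have hCq1 : 1 ≤ Cq := by
    rw [hCq]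
    have : 0 ≤ 2 * C / (1 - θ) := by positivity
    linarith
  obtain ⟨M₀, hM₀d⟩ : ∃ M₀ : ℝ, M₀ = max M₂ (Cq ^ (2 / q)) := ⟨_, rfl⟩
  have hM₀2 : M₂ ≤ M₀ := by rw [hM₀d]; exact le_max_left _ _
  have hM₀q : Cq ^ (2 / q) ≤ M₀ := by rw [hM₀d]; exact le_max_right _ _
  have hM₀ : 3 ≤ M₀ := hM₂.trans hM₀2
  obtain ⟨CU, hCU, hU⟩ := hU K c r h r1 h1 hK hr1 hr1r hrle hh1 hh1h hh
  have hsubC : Cy c r1 h1 ⊆ Co c r h := fun x hx =>
    ⟨hx.1.trans_lt (pow_lt_pow_left₀ hr1r hr1.le (by norm_num)), hx.2.trans_lt hh1h⟩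
  have hcond : ∀ t ∈ Ico T₁ T, ∀ x ∈ Cy c r1 h1, |circ (u t) x| ≤ C₀ ∧
      ((sg x = r1 ^ 2 ∨ |x 2 - c| = h1) → |WW (u t) x| ≤ K) := by
    intro t ht x hx
    refine ⟨?_, fun hbx => ?_⟩
    · exact (hcirc t ht x (hsubC hx)).1
    · have hxo : x ∈ Out c r h r1 h1 := by
        refine ⟨Co_sub_Cy _ _ _ (hsubC hx), ?_⟩
        rcases hbx with h2 | h2
        · exact Or.inl h2.ge
        · exact Or.inr h2.ge
      exact (hb t ht x hxo).2.2.1
  obtain ⟨CS, hCS, hSm⟩ := hSm T E c R H r1 h1 T₁ K C₀ u p hu hr1 (hr1r.trans hrR) hh1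
    (hh1h.trans hhH) hT1 hTT hcond
  obtain ⟨Dis, hDis⟩ : ∃ Dis : ℝ, Dis = ∫ z in Ioo 0 T ×ˢ Co c R H, W221.NS.gsq (u z.1) z.2 :=
    ⟨_, rfl⟩
  have hDis0 : 0 ≤ Dis := by rw [hDis]; exact integral_nonneg fun z => gsq_nn _ _
  obtain ⟨Y0, hY0⟩ : ∃ Y0 : ℝ, Y0 = (∫ x, φ x ^ 2 * JJ (u T₁) x ^ 2)
      + ∫ x, φ x ^ 2 * OO (u T₁) x ^ 2 := ⟨_, rfl⟩
  have hY00 : 0 ≤ Y0 := by
    rw [hY0]
    exact add_nonneg (integral_nonneg fun x => by positivity)
      (integral_nonneg fun x => by positivity)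
  have hT0 : 0 < T := hT1.trans hTT
  obtain ⟨A3, hA3⟩ : ∃ A3 : ℝ, A3 = 2 * Y0 + 1 + 2 * (C * (T + Dis)) := ⟨_, rfl⟩
  have hA30 : 0 ≤ A3 := by rw [hA3]; positivity
  obtain ⟨A5, hA5⟩ : ∃ A5 : ℝ, A5 = CU * (T + A3) + 1 := ⟨_, rfl⟩
  have hA51 : 1 ≤ A5 := by
    rw [hA5]
    have : 0 ≤ CU * (T + A3) := by positivity
    linarith
  obtain ⟨K', hK'⟩ : ∃ K' : ℝ, K' = M₀ + K + (CS * A5) ^ (16 / 9 : ℝ) := ⟨_, rfl⟩
  have hpw0 : 0 ≤ (CS * A5) ^ (16 / 9 : ℝ) := Real.rpow_nonneg (by positivity) _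
  refine ⟨K', by rw [hK']; linarith, ?_⟩
  intro ts hts xs hxs
  obtain ⟨-, jW, jJ, jO⟩ := hJnt T u hu.smooth_u
  -- the maximum
  have hsubT : Icc T₁ ts ⊆ Ioo 0 T := fun t ht => ⟨hT1.trans_le ht.1, ht.2.trans_lt hts.2⟩
  have hcomp : IsCompact (Icc T₁ ts ×ˢ Cy c r h) := isCompact_Icc.prod (Cy_compact hr0.le)
  have hcont : ContinuousOn (fun z : ℝ × V => |WW (u z.1) z.2|) (Icc T₁ ts ×ˢ Cy c r h) :=
    (jW.continuousOn.mono (prod_mono hsubT (subset_univ _))).abs
  obtain ⟨z0, hz0, hmax⟩ := hcomp.exists_isMaxOn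
    ⟨(ts, xs), ⟨⟨hts.1, le_rfl⟩, Co_sub_Cy _ _ _ hxs⟩⟩ hcont
  obtain ⟨M', hM'⟩ : ∃ M' : ℝ, M' = |WW (u z0.1) z0.2| := ⟨_, rfl⟩
  have hmax' : ∀ t ∈ Icc T₁ ts, ∀ x ∈ Cy c r h, |WW (u t) x| ≤ M' := by
    intro t ht x hx
    rw [hM']
    exact hmax (show (t, x) ∈ Icc T₁ ts ×ˢ Cy c r h from ⟨ht, hx⟩)
  obtain ⟨M, hM⟩ : ∃ M : ℝ, M = max M₀ M' := ⟨_, rfl⟩
  have hMM₀ : M₀ ≤ M := by rw [hM]; exact le_max_left _ _
  have hMM' : M' ≤ M := by rw [hM]; exact le_max_right _ _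
  suffices hMK : M ≤ K' from
    ((hmax' ts ⟨hts.1, le_rfl⟩ xs (Co_sub_Cy _ _ _ hxs)).trans hMM').trans hMK
  have hM3 : 3 ≤ M := hM₀.trans hMM₀
  have hMp : 0 < M := by linarith
  obtain ⟨l, hl1', hl2, hYd⟩ := hYd M (hM₀2.trans hMM₀)
  have hl1 : M ^ (-(1 / 16) : ℝ) ≤ l :=
    (Real.rpow_le_rpow_of_exponent_le (by linarith) (by linarith)).trans hl1'
  obtain ⟨g7, hg7⟩ : ∃ g7 : ℝ, g7 = M ^ (7 / 16 : ℝ) := ⟨_, rfl⟩
  have hg71 : 1 ≤ g7 := by rw [hg7]; exact Real.one_le_rpow (by linarith) (by norm_num)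
  have hl0 : 0 < l := (Real.rpow_pos_of_pos hMp _).trans_le hl1
  have hlinv : 1 / l ≤ M ^ (1 / 16 : ℝ) := by
    have h2 : 1 / l ≤ 1 / M ^ (-(1 / 16) : ℝ) :=
      one_div_le_one_div_of_le (Real.rpow_pos_of_pos hMp _) hl1
    have h3 : 1 / M ^ (-(1 / 16) : ℝ) = M ^ (1 / 16 : ℝ) := by
      rw [Real.rpow_neg hMp.le]
      exact (one_div _).trans (inv_inv _)
    rwa [h3] at h2
  have hCe : C * (M ^ (-q) / (1 - θ)) / l ≤ 1 / 2 := by
    have k1 : C * (M ^ (-q) / (1 - θ)) ≤ 1 / 2 * M ^ (-(q / 2)) := by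
      have k2 : M ^ (-q) = M ^ (-(q / 2)) * M ^ (-(q / 2)) := by
        rw [← Real.rpow_add hMp]
        congr 1
        ring
      have k3 : Cq ≤ M ^ (q / 2) := by
        calc Cq = (Cq ^ (2 / q)) ^ (q / 2) := by
              rw [← Real.rpow_mul (by linarith)]
              rw [show 2 / q * (q / 2) = 1 by field_simp, Real.rpow_one]
          _ ≤ M ^ (q / 2) := Real.rpow_le_rpow (Real.rpow_nonneg (by linarith) _)
              (hM₀q.trans hMM₀) (by positivity)
      have k4 : M ^ (-(q / 2)) ≤ 1 / Cq := by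
        rw [Real.rpow_neg hMp.le, ← one_div]
        exact one_div_le_one_div_of_le (by linarith) k3
      have k5 : 2 * C / (1 - θ) * M ^ (-(q / 2)) ≤ 1 := by
        calc 2 * C / (1 - θ) * M ^ (-(q / 2)) ≤ 2 * C / (1 - θ) * (1 / Cq) :=
              mul_le_mul_of_nonneg_left k4 (by positivity)
          _ = (2 * C / (1 - θ)) / Cq := by ring
          _ ≤ 1 := by
              rw [div_le_one (by linarith), hCq]
              linarith
      have k6 : 0 ≤ M ^ (-(q / 2)) := Real.rpow_nonneg hMp.le _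
      calc C * (M ^ (-q) / (1 - θ))
          = 1 / 2 * (2 * C / (1 - θ) * M ^ (-(q / 2))) * M ^ (-(q / 2)) := by
            rw [k2]
            field_simp
        _ ≤ 1 / 2 * 1 * M ^ (-(q / 2)) := by gcongr
        _ = _ := by ring
    rw [div_le_iff₀ hl0]
    refine k1.trans ?_
    have k7 : M ^ (-(q / 2)) ≤ l :=
      (Real.rpow_le_rpow_of_exponent_le (by linarith) (by linarith)).trans hl1'
    linarith
  have hCe0 : 0 ≤ C * (M ^ (-q) / (1 - θ)) := by positivity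
  have hCe1 : C * (M ^ (-q) / (1 - θ)) ≤ 1 / 2 := by
    refine le_trans ?_ hCe
    rw [le_div_iff₀ hl0]
    exact mul_le_of_le_one_right hCe0 hl2
  -- integrated energy inequality
  obtain ⟨G, hG⟩ : ∃ G : ℝ → ℝ, G = fun t => ∫ x in Co c r h, W221.NS.gsq (u t) x := ⟨_, rfl⟩
  obtain ⟨D, hD⟩ : ∃ D : ℝ → ℝ, D = fun t => GD (fun x => φ x * OO (u t) x) := ⟨_, rfl⟩
  have hDc : ContinuousOn D (Ioo 0 T) := by
    rw [hD]
    exact (hDt T (fun t => OO (u t)) φ jO hφ.sm hφ.cs).1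
  have hD0 : ∀ t, 0 ≤ D t := fun t => by rw [hD]; exact GD_nn _
  have hDint : ∀ t' ∈ Icc T₁ ts, ∫ t in T₁..t', D t ≤ A3 * g7 := by
    intro t' ht'
    obtain ⟨gi, gle⟩ := dis_sub hu hr0.le hrR.le hhH.le hT1 ht'.1 (ht'.2.trans_lt hts.2)
    rw [← hG] at gi gle
    rw [← hDis] at gle
    obtain ⟨Y, hY⟩ : ∃ Y : ℝ → ℝ, Y = fun s => (∫ x, φ x ^ 2 * JJ (u s) x ^ 2)
      + l * ∫ x, φ x ^ 2 * OO (u s) x ^ 2 := ⟨_, rfl⟩
    have hsubt : Icc T₁ t' ⊆ Icc T₁ ts := Icc_subset_Icc_right ht'.2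
    obtain ⟨Pf, hPf, hPi, hPI⟩ := pm_fun (M := M) hθ0 hθ1 (by linarith) ht'.1
      (ht'.2.trans_lt hts.2)
    rw [← hq] at hPI
    have hYn : ∀ s, 0 ≤ Y s := by
      intro s
      rw [hY]
      exact add_nonneg (integral_nonneg fun x => by positivity)
        (mul_nonneg hl0.le (integral_nonneg fun x => by positivity))
    have hYe : ∀ t ∈ Icc T₁ t', ∃ D' : ℝ, HasDerivAt Y D' t ∧
        D' ≤ -(l * D t) + C * M ^ (3 / 8 : ℝ) * (1 + G t) + C * Pf t * (1 + Y t / l) := by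
      intro t ht
      have htc : t ∈ Ico T₁ T := ⟨ht.1, ht.2.trans_lt (ht'.2.trans_lt hts.2)⟩
      obtain ⟨D', hD1, hD2⟩ := hYd t htc (fun x hx =>
        (hmax' t (hsubt ht) x (Co_sub_Cy _ _ _ hx)).trans hMM')
      refine ⟨D', by rw [hY]; exact hD1, ?_⟩
      have e3 : Y t = (∫ x, φ x ^ 2 * JJ (u t) x ^ 2) + l * ∫ x, φ x ^ 2 * OO (u t) x ^ 2 := by
        rw [hY]
      rw [← e3] at hD2
      refine hD2.trans ?_
      have h2 : 0 ≤ GD (fun x => φ x * JJ (u t) x) := GD_nn _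
      have h3 : C * PM M ((T - t) ^ θ) * (1 + Y t / l) ≤ C * Pf t * (1 + Y t / l) := by
        have h4 : 0 ≤ 1 + Y t / l := by
          have := div_nonneg (hYn t) hl0.le
          linarith
        exact mul_le_mul_of_nonneg_right (mul_le_mul_of_nonneg_left (hPf t ht).2 hC) h4
      rw [hD, hG]
      linarith
    have hYc : ContinuousOn Y (Icc T₁ t') := fun t ht => by
      obtain ⟨D', h2, -⟩ := hYe t ht
      exact h2.continuousAt.continuousWithinAt
    obtain ⟨s₀, hs₀, hS⟩ := isCompact_Icc.exists_isMaxOn ⟨T₁, ⟨le_rfl, ht'.1⟩⟩ hYc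
    obtain ⟨S, hSd⟩ : ∃ S : ℝ, S = Y s₀ := ⟨_, rfl⟩
    have hSm' : ∀ t ∈ Icc T₁ t', Y t ≤ S := fun t ht => by
      rw [hSd]
      exact hS ht
    have hS0 : 0 ≤ S := by rw [hSd]; exact hYn _
    have hY' : ∀ t ∈ Icc T₁ t', HasDerivAt Y (deriv Y t) t ∧
        deriv Y t ≤ -(l * D t) + C * M ^ (3 / 8 : ℝ) * (1 + G t) + C * (1 + S / l) * Pf t := by
      intro t ht
      obtain ⟨D', hD1, hD2⟩ := hYe t ht
      rw [hD1.deriv]
      refine ⟨hD1, hD2.trans ?_⟩
      have h2 : C * Pf t * (1 + Y t / l) ≤ C * (1 + S / l) * Pf t := by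
        have h3 : Y t / l ≤ S / l := div_le_div_of_nonneg_right (hSm' t ht) hl0.le
        have h4 := mul_le_mul_of_nonneg_left (show 1 + Y t / l ≤ 1 + S / l by linarith)
          (mul_nonneg hC (hPf t ht).1)
        linarith
      linarith
    have hDi : IntegrableOn D (Icc T₁ t') :=
      (hDc.mono (hsubt.trans hsubT)).integrableOn_compact isCompact_Icc
    have hconsti : IntegrableOn (fun _ : ℝ => (1 : ℝ)) (Icc T₁ t') :=
      continuousOn_const.integrableOn_compact isCompact_Icc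
    have hYT : Y T₁ ≤ Y0 := by
      rw [hY, hY0]
      have h2 : 0 ≤ ∫ x, φ x ^ 2 * OO (u T₁) x ^ 2 := integral_nonneg fun x => by positivity
      show (∫ x, φ x ^ 2 * JJ (u T₁) x ^ 2) + l * (∫ x, φ x ^ 2 * OO (u T₁) x ^ 2) ≤ _
      have := mul_le_of_le_one_left h2 hl2
      linarith
    have hm0 : 0 ≤ M ^ (3 / 8 : ℝ) := Real.rpow_nonneg hMp.le _
    have hkey : ∀ s ∈ Icc T₁ t', Y s + l * (∫ t in T₁..s, D t)
        ≤ Y0 + C * M ^ (3 / 8 : ℝ) * (T + Dis) + 1 / 2 + S / 2 := by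
      intro s hs
      have hsub3 : Icc T₁ s ⊆ Icc T₁ t' := Icc_subset_Icc_right hs.2
      have hint0 : IntegrableOn (fun t => -(l * D t) + C * M ^ (3 / 8 : ℝ) * (1 + G t)
          + C * (1 + S / l) * Pf t) (Icc T₁ t') :=
        ((hDi.const_mul l).neg.add ((hconsti.add gi).const_mul _)).add (hPi.const_mul _)
      have hint : IntegrableOn (fun t => -(l * D t) + C * M ^ (3 / 8 : ℝ) * (1 + G t)
          + C * (1 + S / l) * Pf t) (Icc T₁ s) := hint0.mono_set hsub3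
      have hle := intervalIntegral.sub_le_integral_of_hasDeriv_right_of_le (g := Y)
        (g' := deriv Y) (φ := fun t => -(l * D t) + C * M ^ (3 / 8 : ℝ) * (1 + G t)
          + C * (1 + S / l) * Pf t) hs.1
        (fun t ht => (hY' t (hsub3 ht)).1.continuousAt.continuousWithinAt)
        (fun t ht => (hY' t (hsub3 (Ioo_subset_Icc_self ht))).1.hasDerivWithinAt) hint
        (fun t ht => (hY' t (hsub3 (Ioo_subset_Icc_self ht))).2)
      have toI : ∀ f : ℝ → ℝ, IntegrableOn f (Icc T₁ t') → IntervalIntegrable f volume T₁ s :=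
        fun f hf => by
          rw [intervalIntegrable_iff_integrableOn_Icc_of_le hs.1]
          exact hf.mono_set hsub3
      have e1 : ∫ t in T₁..s, (-(l * D t) + C * M ^ (3 / 8 : ℝ) * (1 + G t)
            + C * (1 + S / l) * Pf t)
          = -(l * ∫ t in T₁..s, D t) + C * M ^ (3 / 8 : ℝ) * ((s - T₁) + ∫ t in T₁..s, G t)
            + C * (1 + S / l) * ∫ t in T₁..s, Pf t := by
        have e0 : ∀ t, -(l * D t) + C * M ^ (3 / 8 : ℝ) * (1 + G t) + C * (1 + S / l) * Pf t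
            = (-l) * D t + C * M ^ (3 / 8 : ℝ) * (1 + G t) + C * (1 + S / l) * Pf t := by
          intro t
          ring
        simp_rw [e0]
        rw [intervalIntegral.integral_add (((toI D hDi).const_mul (-l)).add
          (((toI _ hconsti).add (toI G gi)).const_mul _)) ((toI Pf hPi).const_mul _),
          intervalIntegral.integral_add ((toI D hDi).const_mul (-l))
          (((toI _ hconsti).add (toI G gi)).const_mul _),
          intervalIntegral.integral_const_mul, intervalIntegral.integral_const_mul,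
          intervalIntegral.integral_const_mul,
          intervalIntegral.integral_add (toI _ hconsti) (toI G gi)]
        simp
      rw [e1] at hle
      obtain ⟨-, gle'⟩ := dis_sub hu hr0.le hrR.le hhH.le hT1 hs.1
        ((hs.2.trans ht'.2).trans_lt hts.2)
      rw [← hG, ← hDis] at gle'
      have h5 : C * M ^ (3 / 8 : ℝ) * ((s - T₁) + ∫ t in T₁..s, G t)
          ≤ C * M ^ (3 / 8 : ℝ) * (T + Dis) := by
        refine mul_le_mul_of_nonneg_left ?_ (by positivity)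
        have : s < T := (hs.2.trans ht'.2).trans_lt hts.2
        linarith
      have h6 : C * (1 + S / l) * ∫ t in T₁..s, Pf t ≤ 1 / 2 + S / 2 := by
        have h7 : 0 ≤ C * (1 + S / l) := by positivity
        calc C * (1 + S / l) * ∫ t in T₁..s, Pf t
            ≤ C * (1 + S / l) * (M ^ (-q) / (1 - θ)) := mul_le_mul_of_nonneg_left (hPI s hs) h7
          _ = C * (M ^ (-q) / (1 - θ)) + C * (M ^ (-q) / (1 - θ)) / l * S := by
              field_simp
          _ ≤ 1 / 2 + 1 / 2 * S := add_le_add hCe1 (mul_le_mul_of_nonneg_right hCe hS0)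
          _ = _ := by ring
      linarith
    have hDn : ∀ s ∈ Icc T₁ t', 0 ≤ l * (∫ t in T₁..s, D t) := fun s hs =>
      mul_nonneg hl0.le (intervalIntegral.integral_nonneg hs.1 fun t _ => hD0 t)
    have hSb : S ≤ 2 * (Y0 + C * M ^ (3 / 8 : ℝ) * (T + Dis)) + 1 := by
      have h2 := hkey s₀ hs₀
      have h3 := hDn s₀ hs₀
      rw [← hSd] at h2
      linarith
    have h6 : l * ∫ t in T₁..t', D t ≤ 2 * (Y0 + C * M ^ (3 / 8 : ℝ) * (T + Dis)) + 1 := by
      have h2 := hkey t' ⟨ht'.1, le_rfl⟩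
      have h3 := hYn t'
      linarith
    have h7 : ∫ t in T₁..t', D t
        ≤ (1 / l) * (2 * (Y0 + C * M ^ (3 / 8 : ℝ) * (T + Dis)) + 1) := by
      rw [one_div_mul_eq_div, le_div_iff₀ hl0]
      linarith
    refine h7.trans ?_
    have hp0 : 0 ≤ 2 * (Y0 + C * M ^ (3 / 8 : ℝ) * (T + Dis)) + 1 := by positivity
    refine (mul_le_mul_of_nonneg_right hlinv hp0).trans ?_
    have k1 : M ^ (1 / 16 : ℝ) * M ^ (3 / 8 : ℝ) = g7 := by
      rw [hg7, ← Real.rpow_add hMp]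
      norm_num
    have k2 : M ^ (1 / 16 : ℝ) ≤ g7 := by
      rw [hg7]
      exact Real.rpow_le_rpow_of_exponent_le (by linarith) (by norm_num)
    calc M ^ (1 / 16 : ℝ) * (2 * (Y0 + C * M ^ (3 / 8 : ℝ) * (T + Dis)) + 1)
        = M ^ (1 / 16 : ℝ) * (2 * Y0 + 1)
          + (M ^ (1 / 16 : ℝ) * M ^ (3 / 8 : ℝ)) * (2 * (C * (T + Dis))) := by ring
      _ ≤ g7 * (2 * Y0 + 1) + g7 * (2 * (C * (T + Dis))) := by
          rw [k1]
          have := mul_le_mul_of_nonneg_right k2 (show 0 ≤ 2 * Y0 + 1 by linarith)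
          linarith
      _ = A3 * g7 := by rw [hA3]; ring
  -- smoothing
  obtain ⟨τ, hτ⟩ : ∃ τ : ℝ, τ = 1 / (A5 * g7) := ⟨_, rfl⟩
  have hAg : 1 ≤ A5 * g7 := by nlinarith
  have hτ0 : 0 < τ := by rw [hτ]; positivity
  have hτ1 : τ ≤ 1 := by
    rw [hτ, div_le_one (by positivity)]
    exact hAg
  obtain ⟨B, hB⟩ : ∃ B : ℝ → ℝ, B = fun t => √(CU * (1 + D t)) := ⟨_, rfl⟩
  have hsmall : ∀ t' ∈ Icc T₁ ts, ∀ x ∈ Cy c r1 h1, |WW (u t') x| ≤ CS / τ := by
    intro t' ht'
    have hsubt : Icc T₁ t' ⊆ Ioo 0 T := (Icc_subset_Icc_right ht'.2).trans hsubT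
    have hBc : ContinuousOn B (Icc T₁ t') := by
      rw [hB]
      exact (continuousOn_const.mul (continuousOn_const.add (hDc.mono hsubt))).sqrt
    have hBsq : ∀ t, B t ^ 2 = CU * (1 + D t) := by
      intro t
      rw [hB]
      exact Real.sq_sqrt (mul_nonneg hCU (by linarith [hD0 t]))
    refine hSm τ ⟨hτ0, hτ1⟩ t' ⟨ht'.1, ht'.2.trans_lt hts.2⟩ B hBc ?_ ?_
    · intro t ht x hx
      have htI : t ∈ Ioo 0 T := hsubt ht
      have htc : t ∈ Ico T₁ T := ⟨ht.1, htI.2⟩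
      have hv := slice_V hu.smooth_u htI
      have hU3 := (hU (u t) φ hv (hu.axi t htI) (fun y hy => hu.divfree t htI y
        (Co_mono hr0.le hrR.le hhH.le hy)) hφ (hb t htc)).2.2.1 x
      rw [hφ.one x hx, one_mul] at hU3
      have h2 : |UU (u t) x| ^ 2 ≤ CU * (1 + D t) := by
        rw [sq_abs, hD]
        exact hU3
      rw [hB]
      exact Real.le_sqrt_of_sq_le h2
    · obtain ⟨a, ha⟩ : ∃ a : ℝ, a = max T₁ (t' - τ) := ⟨_, rfl⟩
      have ha1 : T₁ ≤ a := by rw [ha]; exact le_max_left _ _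
      have ha2 : a ≤ t' := by rw [ha]; exact max_le ht'.1 (by linarith)
      have ha3 : t' - a ≤ τ := by
        have : t' - τ ≤ a := by rw [ha]; exact le_max_right _ _
        linarith
      rw [← ha]
      have hsuba : Icc a t' ⊆ Icc T₁ t' := Icc_subset_Icc_left ha1
      have iB : IntervalIntegrable B volume a t' := by
        refine ContinuousOn.intervalIntegrable ?_
        rw [uIcc_of_le ha2]
        exact hBc.mono hsuba
      have iD : ∀ {a' b' : ℝ}, T₁ ≤ a' → a' ≤ b' → b' ≤ t' → IntervalIntegrable D volume a' b' := by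
        intro a' b' h1' h2' h3'
        refine ContinuousOn.intervalIntegrable ?_
        rw [uIcc_of_le h2']
        exact hDc.mono ((Icc_subset_Icc h1' h3').trans hsubt)
      have iC : IntervalIntegrable (fun _ : ℝ => (1 : ℝ)) volume a t' :=
        continuous_const.intervalIntegrable _ _
      have iR : IntervalIntegrable (fun t => 1 / 2 * (τ * (CU * (1 + D t)) + 1 / τ * 1))
          volume a t' :=
        ((((iC.add (iD ha1 ha2 le_rfl)).const_mul CU).const_mul τ).add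
          (iC.const_mul (1 / τ))).const_mul (1 / 2)
      have h2 : ∫ t in a..t', B t ≤ ∫ t in a..t', 1 / 2 * (τ * (CU * (1 + D t)) + 1 / τ * 1) := by
        refine intervalIntegral.integral_mono_on ha2 iB iR fun t _ => ?_
        rw [← hBsq t]
        have h3 : 0 ≤ (τ * B t - 1) ^ 2 := sq_nonneg _
        have h4 : B t ≤ 1 / 2 * (τ * B t ^ 2 + 1 / τ * 1) := by
          have h5 : 1 / 2 * (τ * B t ^ 2 + 1 / τ * 1) - B t = (τ * B t - 1) ^ 2 / (2 * τ) := by
            field_simp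
            ring
          have h6 : 0 ≤ (τ * B t - 1) ^ 2 / (2 * τ) := by positivity
          linarith
        exact h4
      refine h2.trans ?_
      have h3 : ∫ t in a..t', 1 / 2 * (τ * (CU * (1 + D t)) + 1 / τ * 1)
          = 1 / 2 * (τ * (CU * ((t' - a) + ∫ t in a..t', D t)) + 1 / τ * (t' - a)) := by
        rw [intervalIntegral.integral_const_mul, intervalIntegral.integral_add
          (((iC.add (iD ha1 ha2 le_rfl)).const_mul CU).const_mul τ) (iC.const_mul (1 / τ)),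
          intervalIntegral.integral_const_mul, intervalIntegral.integral_const_mul,
          intervalIntegral.integral_const_mul,
          intervalIntegral.integral_add iC (iD ha1 ha2 le_rfl)]
        simp
      rw [h3]
      have h4 : ∫ t in a..t', D t ≤ A3 * g7 := by
        have h5 := intervalIntegral.integral_add_adjacent_intervals (iD le_rfl ha1 ha2)
          (iD ha1 ha2 le_rfl)
        have h6 : 0 ≤ ∫ t in T₁..a, D t := intervalIntegral.integral_nonneg ha1 fun s _ => hD0 s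
        have h7 := hDint t' ht'
        linarith
      have h5 : CU * ((t' - a) + ∫ t in a..t', D t) ≤ A5 * g7 := by
        have h6 : (t' - a) + ∫ t in a..t', D t ≤ (T + A3) * g7 := by
          have : t' < T := ht'.2.trans_lt hts.2
          have : T * 1 ≤ T * g7 := mul_le_mul_of_nonneg_left hg71 hT0.le
          nlinarith
        calc CU * ((t' - a) + ∫ t in a..t', D t) ≤ CU * ((T + A3) * g7) :=
              mul_le_mul_of_nonneg_left h6 hCU
          _ = (CU * (T + A3)) * g7 := by ring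
          _ ≤ A5 * g7 := by
              refine mul_le_mul_of_nonneg_right ?_ (by linarith)
              rw [hA5]
              linarith
      have h6 : τ * (CU * ((t' - a) + ∫ t in a..t', D t)) ≤ 1 := by
        calc τ * (CU * ((t' - a) + ∫ t in a..t', D t)) ≤ τ * (A5 * g7) :=
              mul_le_mul_of_nonneg_left h5 hτ0.le
          _ = 1 := by
              rw [hτ]
              field_simp
      have h7 : 1 / τ * (t' - a) ≤ 1 := by
        rw [one_div_mul_eq_div, div_le_one hτ0]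
        exact ha3
      linarith
  -- conclusion
  have hM'b : M' ≤ K ∨ M' ≤ CS * A5 * g7 := by
    by_cases hin : z0.2 ∈ Cy c r1 h1
    · right
      rw [hM']
      refine (hsmall z0.1 hz0.1 z0.2 hin).trans (le_of_eq ?_)
      rw [hτ]
      field_simp
    · left
      rw [hM']
      have hxo : z0.2 ∈ Out c r h r1 h1 := by
        refine ⟨hz0.2, ?_⟩
        by_contra hcon
        push Not at hcon
        exact hin ⟨hcon.1.le, hcon.2.le⟩
      exact (hb z0.1 ⟨hz0.1.1, hz0.1.2.trans_lt hts.2⟩ z0.2 hxo).2.2.1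
  rcases max_cases M₀ M' with ⟨h2, -⟩ | ⟨h2, -⟩
  · rw [hM, h2, hK']
    linarith
  · rw [h2] at hM
    rcases hM'b with h3 | h3
    · rw [hM, hK']
      linarith
    · -- `M ≤ CS A5 M^(7/16)`
      have h4 : M ≤ CS * A5 * M ^ (7 / 16 : ℝ) := by
        rw [← hg7]
        rw [hM]
        exact h3
      have h5 : M ^ (9 / 16 : ℝ) ≤ CS * A5 := by
        have h6 : M ^ (9 / 16 : ℝ) * M ^ (7 / 16 : ℝ) = M := by
          rw [← Real.rpow_add hMp]
          norm_num
        have h7 : M ^ (9 / 16 : ℝ) * M ^ (7 / 16 : ℝ) ≤ CS * A5 * M ^ (7 / 16 : ℝ) := by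
          rw [h6]
          exact h4
        exact le_of_mul_le_mul_right h7 (Real.rpow_pos_of_pos hMp _)
      have h6 : M ≤ (CS * A5) ^ (16 / 9 : ℝ) := by
        calc M = (M ^ (9 / 16 : ℝ)) ^ (16 / 9 : ℝ) := by
              rw [← Real.rpow_mul hMp.le]
              norm_num
          _ ≤ _ := Real.rpow_le_rpow (Real.rpow_nonneg hMp.le _) h5 (by norm_num)
      rw [hK']
      linarith

end Pool.Agent.H575.AX
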